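import Pool.Agent.Helper74.DR.St

/-!
# Project DR (MP_26f0da_lc), module ONE: one type of brackets
-/

set_option autoImplicit false

namespace Pool.Agent.Helper8.DR

open Pool.Agent.Helper74.DR

theorem lh_none (w : List (Option (Unit × Bool))) : lh w none = none := by
  cases w with
  | nil => simp only [lh]
  | cons y w => simp only [lh]

theorem lh_append (w w' : List (Option (Unit × Bool))) (c : Option (ℕ × ℕ)) :
    lh (w ++ w') c = lh w' (lh w c) := by
  induction w generalizing c with
  | nil => simp only [List.nil_append, lh]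
  | cons y w ih =>
    rcases c with _ | ⟨l, m⟩
    · rw [lh_none, lh_none, lh_none]
    · rcases y with _ | ⟨u, b⟩
      · simp only [List.cons_append, lh]; exact ih _
      · cases b
        · simp only [List.cons_append, lh]; exact ih _
        · simp only [List.cons_append, lh]; exact ih _

/-- the transition function: states `0` start, `1` run, `2` reject, `3` accept -/
def dl (q : Fin 4) (r : Fin 3 → Bool × Option (Option (Unit × Bool))) : Fin 4 × (Fin 3 → Fin 3) :=
  if q = 0 then (1, ![2, 1, 1])
  else if q = 1 then
    match (r 0).2 with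
    | none => (if (r 1).1 then 3 else 2, ![1, 1, 1])
    | some (some (_, true)) => (1, ![2, 2, 2])
    | some (some (_, false)) =>
      if (r 2).1 then (2, ![1, 1, 1]) else (1, ![2, if (r 1).1 then 2 else 0, 0])
    | some none => (1, ![2, if (r 1).1 then 2 else 0, 2])
  else (q, ![1, 1, 1])

theorem stp_start (w : List (Option (Unit × Bool))) :
    stp dl w (0, fun _ => 0) = (1, ![1, 0, 0]) := by
  refine Prod.ext rfl ?_
  funext i
  fin_cases i <;> simp [stp, dl]

theorem stp_end (w : List (Option (Unit × Bool))) (p l m : ℕ) (h : w[p - 1]? = none) :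
    (stp dl w (1, ![p, l, m])).1 = if l = 0 then 3 else 2 := by
  by_cases hl : l = 0
  · simp [stp, dl, h, hl]
  · simp [stp, dl, h, hl]

theorem stp_open (w : List (Option (Unit × Bool))) (p l m : ℕ) (u : Unit)
    (h : w[p - 1]? = some (some (u, true))) (hp : p ≤ w.length) (hl : l ≤ w.length)
    (hm : m ≤ w.length) : stp dl w (1, ![p, l, m]) = (1, ![p + 1, l + 1, m + 1]) := by
  refine Prod.ext (by simp [stp, dl, h]) ?_
  funext i
  fin_cases i <;> simp [stp, dl, h] <;> omega

theorem stp_close (w : List (Option (Unit × Bool))) (p l m : ℕ) (u : Unit)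
    (h : w[p - 1]? = some (some (u, false))) (hp : p ≤ w.length) (h0 : m ≠ 0) :
    stp dl w (1, ![p, l, m]) = (1, ![p + 1, if l = 0 then 1 else l - 1, m - 1]) := by
  refine Prod.ext (by simp [stp, dl, h, h0]) ?_
  funext i
  fin_cases i
  · simp [stp, dl, h, h0]; omega
  · by_cases hl0 : l = 0
    · simp [stp, dl, h, h0, hl0]
    · simp [stp, dl, h, h0, hl0]
  · simp [stp, dl, h, h0]

theorem stp_close0 (w : List (Option (Unit × Bool))) (p l : ℕ) (u : Unit)
    (h : w[p - 1]? = some (some (u, false))) :
    (stp dl w (1, ![p, l, 0])).1 = 2 := by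
  simp [stp, dl, h]

theorem stp_joker (w : List (Option (Unit × Bool))) (p l m : ℕ)
    (h : w[p - 1]? = some none) (hp : p ≤ w.length) (hm : m ≤ w.length) :
    stp dl w (1, ![p, l, m]) = (1, ![p + 1, if l = 0 then 1 else l - 1, m + 1]) := by
  refine Prod.ext (by simp [stp, dl, h]) ?_
  funext i
  fin_cases i
  · simp [stp, dl, h]; omega
  · by_cases hl0 : l = 0
    · simp [stp, dl, h, hl0]
    · simp [stp, dl, h, hl0]
  · simp [stp, dl, h]; omega

theorem stp_rej (w : List (Option (Unit × Bool))) (c : Fin 4 × (Fin 3 → ℕ)) (h : c.1 = 2) :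
    (stp dl w c).1 = 2 := by
  simp [stp, dl, h]

theorem stp_rej_iter (w : List (Option (Unit × Bool))) (n : ℕ) (c : Fin 4 × (Fin 3 → ℕ))
    (h : c.1 = 2) : ((stp dl w)^[n] c).1 = 2 := by
  induction n with
  | zero => exact h
  | succ n ih => rw [Function.iterate_succ_apply']; exact stp_rej w _ ih

theorem inv (w : List (Option (Unit × Bool))) (t : ℕ) (ht : t ≤ w.length) :
    (∃ l m, lh (w.take t) (some (0, 0)) = some (l, m) ∧ l ≤ t ∧ m ≤ t ∧
      (stp dl w)^[t + 1] (0, fun _ => 0) = (1, ![t + 1, l, m])) ∨
    (lh (w.take t) (some (0, 0)) = none ∧ ((stp dl w)^[t + 1] (0, fun _ => 0)).1 = 2) := by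
  induction t with
  | zero =>
    left
    refine ⟨0, 0, by simp only [List.take_zero, lh], le_rfl, le_rfl, ?_⟩
    rw [zero_add, Function.iterate_one]
    exact stp_start w
  | succ t ih =>
    have hlt : t < w.length := ht
    have htake : w.take (t + 1) = w.take t ++ [w[t]] := by
      rw [List.take_add_one, List.getElem?_eq_getElem hlt]
      rfl
    have hget : w[t + 1 - 1]? = some w[t] := by
      rw [Nat.add_sub_cancel, List.getElem?_eq_getElem hlt]
    rw [htake, lh_append, Function.iterate_succ_apply']
    rcases ih (by omega) with ⟨l, m, h1, hl, hm, h2⟩ | ⟨h1, h2⟩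
    · rw [h1, h2]
      generalize w[t] = y at hget
      rcases y with _ | ⟨u, b⟩
      · left
        refine ⟨if l = 0 then 1 else l - 1, m + 1, by simp only [lh], by split_ifs <;> omega,
          by omega, ?_⟩
        exact stp_joker w _ _ _ hget (by omega) (by omega)
      · cases b
        · by_cases hm0 : m = 0
          · right
            subst hm0
            exact ⟨by simp [lh], stp_close0 w _ _ u hget⟩
          · left
            refine ⟨if l = 0 then 1 else l - 1, m - 1, by simp only [lh, if_neg hm0],
              by split_ifs <;> omega, by omega, ?_⟩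
            exact stp_close w _ _ _ u hget (by omega) hm0
        · left
          refine ⟨l + 1, m + 1, by simp only [lh], by omega, by omega, ?_⟩
          exact stp_open w _ _ _ u hget (by omega) (by omega) (by omega)
    · right
      exact ⟨by rw [h1, lh_none], stp_rej w _ h2⟩

/-- **ONE** -/
theorem hONE (hHGT : StHGT) : StONE := by
  refine (inL_iff _).2 ⟨Fin 4, inferInstance, 3, dl, 0, {3}, fun w => (hHGT w).trans ?_⟩
  have hw : w.take w.length = w := List.take_length
  have hget : w[w.length + 1 - 1]? = none := by
    rw [Nat.add_sub_cancel]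
    exact List.getElem?_eq_none le_rfl
  constructor
  · rintro ⟨m, hm⟩
    refine ⟨w.length + 1 + 1, ?_⟩
    rw [Function.iterate_succ_apply']
    rcases inv w w.length le_rfl with ⟨l, m', h1, -, -, h2⟩ | ⟨h1, -⟩
    · rw [hw, hm] at h1
      simp only [Option.some.injEq, Prod.mk.injEq] at h1
      rw [h2, Set.mem_singleton_iff, stp_end w _ _ _ hget, ← h1.1, if_pos rfl]
    · rw [hw, hm] at h1
      exact absurd h1 (by simp)
  · rintro ⟨N, hN⟩
    rw [Set.mem_singleton_iff] at hN
    rcases Nat.lt_or_ge N (w.length + 2) with hlt | hge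
    · exfalso
      rcases Nat.eq_zero_or_pos N with h0 | hpos
      · subst h0
        exact absurd hN (by simp)
      · obtain ⟨t, rfl⟩ : ∃ t, N = t + 1 := ⟨N - 1, by omega⟩
        rcases inv w t (by omega) with ⟨l, m', -, -, -, h2⟩ | ⟨-, h2⟩
        · rw [h2] at hN
          exact absurd hN (by simp)
        · rw [h2] at hN
          exact absurd hN (by simp)
    · obtain ⟨j, rfl⟩ : ∃ j, N = j + (w.length + 1 + 1) := ⟨N - (w.length + 2), by omega⟩
      rw [Function.iterate_add_apply, Function.iterate_succ_apply' _ (w.length + 1)] at hN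
      rcases inv w w.length le_rfl with ⟨l, m', h1, -, -, h2⟩ | ⟨h1, h2⟩
      · rw [hw] at h1
        by_cases hl : l = 0
        · subst hl
          exact ⟨m', h1⟩
        · exfalso
          rw [h2, stp_rej_iter w j _ (by rw [stp_end w _ _ _ hget, if_neg hl])] at hN
          exact absurd hN (by simp)
      · exfalso
        rw [stp_rej_iter w j _ (stp_rej w _ h2)] at hN
        exact absurd hN (by simp)

end Pool.Agent.Helper8.DR
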